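import Pool.Agent.H678R3.BSD.Height3

/-!
# Almost all curves by height look like average rank `1/2`, for all `y` at once

`FX X` is the set of the elliptic curves `y² = x³ + A x + B` (in the unique model of the problem) of
naive height at most `X`.  `EP A B y` is the product of `#E(F_p) / p` over the primes `p ≤ y` which
do not divide twice the discriminant (Birch and Swinnerton-Dyer: of size `(log y) ^ rank`).
(1) For all curves of height at most `X` but a proportion `O((log x₀) ^ (-ε²/2))` the product lies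
between `(log y) ^ (1/2 - ε)` and `(log y) ^ (1/2 + ε)` for all `y` in `[x₀, Y]` at once, if the cube
of the product of the primes up to `Y` is at most `X`.
(2) The same with `3/2` for the curves `y² = x³ + A x + t²` with the marked point `(0, t)`.
-/

set_option autoImplicit false

open Finset Pool.Agent.H678R3.BSD.W2

namespace Pool.Agent.Results.MP_6073f3_nt.ProductUniform

open Classical in
theorem result (ε : ℝ) (hε : 0 < ε) :
    (∃ C : ℝ, 0 < C ∧ ∀ x₀ Y : ℕ, 2 ≤ x₀ → ∀ X : ℝ, 8 ≤ X → ((primorial Y : ℕ) : ℝ) ^ 3 ≤ X →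
      (({q ∈ FX X | ∃ y ∈ Finset.Icc x₀ Y, ¬ (Real.log y ^ (1 / 2 - ε) ≤ EP q.1 q.2 y ∧
        EP q.1 q.2 y ≤ Real.log y ^ (1 / 2 + ε))}.ncard : ℕ) : ℝ) ≤
        C * Real.log x₀ ^ (-(ε ^ 2 / 2)) * ((FX X).ncard : ℝ)) ∧
    (∃ C : ℝ, 0 < C ∧ ∀ x₀ Y : ℕ, 2 ≤ x₀ → ∀ lo hi : Fin 2 → ℤ,
      (∀ i, (primorial Y : ℤ) ≤ hi i - lo i) →
      (((boxS lo hi).filter fun n => ∃ y ∈ Finset.Icc x₀ Y,
        ¬ (Real.log y ^ ((3 : ℝ) / 2 - ε) ≤ EP (n 0) (n 1 ^ 2) y ∧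
          EP (n 0) (n 1 ^ 2) y ≤ Real.log y ^ ((3 : ℝ) / 2 + ε))).card : ℝ) ≤
        C * Real.log x₀ ^ (-(ε ^ 2 / 2)) *
          (((hi 0 - lo 0 : ℤ) : ℝ) * ((hi 1 - lo 1 : ℤ) : ℝ))) := by
  refine ⟨uniform_height ε hε, ?_⟩
  obtain ⟨C, hC0, hC⟩ := uniform 1 le_rfl ε hε
  refine ⟨C, hC0, fun x₀ Y hx₀ lo hi hH => ?_⟩
  have h := hC x₀ Y hx₀ lo hi hH
  have e1 : ((1 : ℕ) : ℝ) + 1 / 2 - ε = 3 / 2 - ε := by push_cast; ring
  have e2 : ((1 : ℕ) : ℝ) + 1 / 2 + ε = 3 / 2 + ε := by push_cast; ring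
  rw [e1, e2] at h
  exact h

end Pool.Agent.Results.MP_6073f3_nt.ProductUniform
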